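import Mathlib
import Pool.Agent.Helper12.LW.Defs

/-!
# Transport of a lattice-free body by a unimodular matrix
-/

set_option autoImplicit false

namespace Pool.Agent.Helper24.LW

open Matrix Pool.Agent.Helper12.LW

theorem toR_mulVec (U : Matrix (Fin 3) (Fin 3) ℤ) (z : Fin 3 → ℤ) :
    (U.map (Int.cast : ℤ → ℝ)) *ᵥ toR z = toR (U *ᵥ z) := by
  funext i
  simp [toR, Matrix.mulVec, dotProduct]

theorem map_mul_cast (U V : Matrix (Fin 3) (Fin 3) ℤ) :
    (U.map (Int.cast : ℤ → ℝ)) * (V.map (Int.cast : ℤ → ℝ)) = (U * V).map (Int.cast : ℤ → ℝ) := by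
  have h := (Matrix.map_mul (L := U) (M := V) (f := Int.castRingHom ℝ))
  simpa using h.symm

theorem map_one_cast : (1 : Matrix (Fin 3) (Fin 3) ℤ).map (Int.cast : ℤ → ℝ) = 1 := by
  ext i j
  by_cases h : i = j
  · subst h; simp
  · simp [h]

/-- the homeomorphism of `ℝ³` given by a unimodular matrix `U` with inverse `V` -/
def homeo (U V : Matrix (Fin 3) (Fin 3) ℤ) (h1 : U * V = 1) (h2 : V * U = 1) :
    (Fin 3 → ℝ) ≃ₜ (Fin 3 → ℝ) where
  toFun := fun x => (U.map (Int.cast : ℤ → ℝ)) *ᵥ x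
  invFun := fun x => (V.map (Int.cast : ℤ → ℝ)) *ᵥ x
  left_inv := by
    intro x
    simp only [Matrix.mulVec_mulVec, map_mul_cast, h2, map_one_cast, Matrix.one_mulVec]
  right_inv := by
    intro x
    simp only [Matrix.mulVec_mulVec, map_mul_cast, h1, map_one_cast, Matrix.one_mulVec]
  continuous_toFun := by
    exact Continuous.matrix_mulVec continuous_const continuous_id
  continuous_invFun := by
    exact Continuous.matrix_mulVec continuous_const continuous_id

/-- The image of a lattice-free body under a unimodular matrix is lattice-free, and a position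
inequality for `A` becomes one for `B`. -/
theorem transport (K : Set (Fin 3 → ℝ)) (hK : LFree K) (A B : Matrix (Fin 3) (Fin 3) ℝ) (μ ω : ℝ)
    (hω : 0 < ω) (hP : PosAt K A μ) (U : Matrix (Fin 3) (Fin 3) ℤ) (hU : IsUnit U.det)
    (hB : ∀ v : Fin 3 → ℝ, ω * qf B v ≤ qf A ((U.map (Int.cast : ℤ → ℝ))ᵀ *ᵥ v)) :
    ∃ K' : Set (Fin 3 → ℝ), LFree K' ∧ PosAt K' B (μ / ω) := by
  have h1 : U * U⁻¹ = 1 := Matrix.mul_nonsing_inv U hU
  have h2 : U⁻¹ * U = 1 := Matrix.nonsing_inv_mul U hU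
  set e := homeo U U⁻¹ h1 h2 with he
  have hex : ∀ x, e x = (U.map (Int.cast : ℤ → ℝ)) *ᵥ x := fun x => rfl
  have hesx : ∀ x, e.symm x = (U⁻¹.map (Int.cast : ℤ → ℝ)) *ᵥ x := fun x => rfl
  refine ⟨e '' K, ⟨?_, ?_, ?_, ?_⟩, ?_⟩
  · exact hK.compact.image e.continuous
  · have : e '' K = (Matrix.mulVecLin (U.map (Int.cast : ℤ → ℝ))) '' K := by
      apply Set.image_congr
      intro x _
      rfl
    rw [this]
    exact hK.convex.linear_image _
  · rw [← e.image_interior]
    exact hK.interior_nonempty.image _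
  · intro z hz
    rw [← e.image_interior] at hz
    obtain ⟨x, hx, hxz⟩ := hz
    have : x = toR (U⁻¹ *ᵥ z) := by
      rw [← toR_mulVec, ← hesx, ← hxz, e.symm_apply_apply]
    rw [this] at hx
    exact hK.free _ hx
  · intro a v ha hv
    have key := hP a (fun j => (U.map (Int.cast : ℤ → ℝ))ᵀ *ᵥ v j) ha ?_
    · rw [le_div_iff₀ hω]
      calc (∑ j, a j * qf B (v j)) * ω = ∑ j, a j * (ω * qf B (v j)) := by
            rw [Finset.sum_mul]; exact Finset.sum_congr rfl fun j _ => by ring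
        _ ≤ ∑ j, a j * qf A ((U.map (Int.cast : ℤ → ℝ))ᵀ *ᵥ v j) :=
            Finset.sum_le_sum fun j _ => mul_le_mul_of_nonneg_left (hB (v j)) (ha j)
        _ ≤ μ := key
    · intro x hx x' hx'
      have h := hv (e x) ⟨x, hx, rfl⟩ (e x') ⟨x', hx', rfl⟩
      refine le_trans (le_of_eq ?_) h
      refine Finset.sum_congr rfl fun j _ => ?_
      congr 2
      rw [hex, hex, ← Matrix.mulVec_sub, Matrix.mulVec_transpose, ← Matrix.dotProduct_mulVec]

end Pool.Agent.Helper24.LW
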