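import Mathlib
import Pool.Agent.Helper12.LW.Defs
import Pool.Agent.Helper24.LW.Transport

/-!
# Reduction to the sector
-/

set_option autoImplicit false

namespace Pool.Agent.Helper24.LW

open Matrix Pool.Agent.Helper12.LW

/-- the two fundamental sectors of the parameter domain -/
def Sector (α β γ : ℝ) : Prop :=
  (0 ≤ γ ∧ γ ≤ β ∧ β ≤ α ∧ α ≤ 1 / 2) ∨
    (α ≤ β ∧ β ≤ γ ∧ γ ≤ 0 ∧ -(1 / 2) ≤ α ∧ -1 ≤ α + β + γ)

/-- no lattice-free body has position bound `μ` for the form with parameters `α, β, γ` -/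
def NoPos (μ α β γ : ℝ) : Prop := ∀ K : Set (Fin 3 → ℝ), LFree K → ¬ PosAt K (Mm α β γ) μ

theorem noPos_of {μ α β γ α' β' γ' : ℝ} (h : NoPos μ α' β' γ') (U : Matrix (Fin 3) (Fin 3) ℤ)
    (hU : IsUnit U.det)
    (hq : ∀ v : Fin 3 → ℝ, qf (Mm α' β' γ') v =
      qf (Mm α β γ) ((U.map (Int.cast : ℤ → ℝ))ᵀ *ᵥ v)) : NoPos μ α β γ := by
  intro K hK hP
  obtain ⟨K', hK', hP'⟩ := transport K hK (Mm α β γ) (Mm α' β' γ') μ 1 one_pos hP U hU
    (fun v => by rw [one_mul, hq v])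
  rw [div_one] at hP'
  exact h K' hK' hP'

theorem noPos_swap1 {μ α β γ : ℝ} (h : NoPos μ β α γ) : NoPos μ α β γ := by
  refine noPos_of h !![1, 0, 0; 0, 0, 1; 0, 1, 0] (by simp [Matrix.det_fin_three]) ?_
  intro v
  simp [qf, Mm, Matrix.mulVec, dotProduct, Fin.sum_univ_three]
  ring

theorem noPos_swap2 {μ α β γ : ℝ} (h : NoPos μ α γ β) : NoPos μ α β γ := by
  refine noPos_of h !![0, 1, 0; 1, 0, 0; 0, 0, 1] (by simp [Matrix.det_fin_three]) ?_
  intro v
  simp [qf, Mm, Matrix.mulVec, dotProduct, Fin.sum_univ_three]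
  ring

theorem noPos_sign1 {μ α β γ : ℝ} (h : NoPos μ (-α) (-β) γ) : NoPos μ α β γ := by
  refine noPos_of h !![-1, 0, 0; 0, 1, 0; 0, 0, 1] (by simp [Matrix.det_fin_three]) ?_
  intro v
  simp [qf, Mm, Matrix.mulVec, dotProduct, Fin.sum_univ_three]
  ring

theorem noPos_sign2 {μ α β γ : ℝ} (h : NoPos μ α (-β) (-γ)) : NoPos μ α β γ := by
  refine noPos_of h !![1, 0, 0; 0, 1, 0; 0, 0, -1] (by simp [Matrix.det_fin_three]) ?_
  intro v
  simp [qf, Mm, Matrix.mulVec, dotProduct, Fin.sum_univ_three]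
  ring

theorem noPos_sign3 {μ α β γ : ℝ} (h : NoPos μ (-α) β (-γ)) : NoPos μ α β γ := by
  apply noPos_sign1
  apply noPos_sign2
  rwa [neg_neg]

theorem noPos_swap3 {μ α β γ : ℝ} (h : NoPos μ γ β α) : NoPos μ α β γ := by
  apply noPos_swap1
  apply noPos_swap2
  exact noPos_swap1 h

theorem noPos_nonneg {μ : ℝ} (h : ∀ α β γ, Sector α β γ → NoPos μ α β γ) {α β γ : ℝ}
    (h1 : 0 ≤ α) (h2 : 0 ≤ β) (h3 : 0 ≤ γ) (k1 : α ≤ 1 / 2) (k2 : β ≤ 1 / 2) (k3 : γ ≤ 1 / 2) :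
    NoPos μ α β γ := by
  have hs : ∀ a b c : ℝ, 0 ≤ c → c ≤ b → b ≤ a → a ≤ 1 / 2 → NoPos μ a b c :=
    fun a b c e1 e2 e3 e4 => h a b c (Or.inl ⟨e1, e2, e3, e4⟩)
  rcases le_total α β with hab | hab <;> rcases le_total β γ with hbc | hbc <;>
    rcases le_total α γ with hac | hac
  · -- α ≤ β ≤ γ
    exact noPos_swap3 (hs γ β α h1 hab hbc k3)
  · exact noPos_swap3 (hs γ β α h1 hab hbc k3)
  · -- α ≤ γ ≤ β
    apply noPos_swap1
    apply noPos_swap2
    exact hs β γ α h1 hac hbc k2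
  · -- γ ≤ α ≤ β
    exact noPos_swap1 (hs β α γ h3 hac hab k2)
  · -- β ≤ α ≤ γ
    apply noPos_swap2
    apply noPos_swap1
    exact hs γ α β h2 hab hac k3
  · -- β ≤ γ ≤ α
    exact noPos_swap2 (hs α γ β h2 hbc hac k1)
  · exact hs α β γ h3 hbc hab k1
  · exact hs α β γ h3 hbc hab k1

theorem noPos_nonpos {μ : ℝ} (h : ∀ α β γ, Sector α β γ → NoPos μ α β γ) {α β γ : ℝ}
    (h1 : α ≤ 0) (h2 : β ≤ 0) (h3 : γ ≤ 0) (k1 : -(1 / 2) ≤ α) (k2 : -(1 / 2) ≤ β)
    (k3 : -(1 / 2) ≤ γ) (k4 : -1 ≤ α + β + γ) : NoPos μ α β γ := by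
  have hs : ∀ a b c : ℝ, a ≤ b → b ≤ c → c ≤ 0 → -(1 / 2) ≤ a → -1 ≤ a + b + c →
      NoPos μ a b c := fun a b c e1 e2 e3 e4 e5 => h a b c (Or.inr ⟨e1, e2, e3, e4, e5⟩)
  rcases le_total α β with hab | hab <;> rcases le_total β γ with hbc | hbc <;>
    rcases le_total α γ with hac | hac
  · exact hs α β γ hab hbc h3 k1 k4
  · exact hs α β γ hab hbc h3 k1 k4
  · -- α ≤ γ ≤ β
    exact noPos_swap2 (hs α γ β hac hbc h2 k1 (by linarith))
  · -- γ ≤ α ≤ β
    apply noPos_swap2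
    apply noPos_swap1
    exact hs γ α β hac hab h2 k3 (by linarith)
  · -- β ≤ α ≤ γ
    exact noPos_swap1 (hs β α γ hab hac h3 k2 (by linarith))
  · -- β ≤ γ ≤ α
    apply noPos_swap1
    apply noPos_swap2
    exact hs β γ α hbc hac h1 k2 (by linarith)
  · exact noPos_swap3 (hs γ β α hbc hab h1 k3 (by linarith))
  · exact noPos_swap3 (hs γ β α hbc hab h1 k3 (by linarith))

/-- It is enough to exclude the parameters in the two sectors. -/
theorem sector (μ : ℝ)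
    (h : ∀ α β γ, Sector α β γ → ∀ K : Set (Fin 3 → ℝ), LFree K → ¬ PosAt K (Mm α β γ) μ) :
    ∀ α β γ, InH α β γ → ∀ K : Set (Fin 3 → ℝ), LFree K → ¬ PosAt K (Mm α β γ) μ := by
  intro α β γ hH
  have h' : ∀ α β γ, Sector α β γ → NoPos μ α β γ := h
  show NoPos μ α β γ
  obtain ⟨a1, a2, a3, b0, b1, b2, b3⟩ := hH
  obtain ⟨a1l, a1r⟩ := abs_le.mp a1
  obtain ⟨a2l, a2r⟩ := abs_le.mp a2
  obtain ⟨a3l, a3r⟩ := abs_le.mp a3
  rcases le_total 0 α with hα | hα <;> rcases le_total 0 β with hβ | hβ <;>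
    rcases le_total 0 γ with hγ | hγ
  · exact noPos_nonneg h' hα hβ hγ a1r a2r a3r
  · apply noPos_sign1
    exact noPos_nonpos h' (by linarith) (by linarith) (by linarith) (by linarith) (by linarith)
      (by linarith) (by linarith)
  · apply noPos_sign3
    exact noPos_nonpos h' (by linarith) (by linarith) (by linarith) (by linarith) (by linarith)
      (by linarith) (by linarith)
  · apply noPos_sign2
    exact noPos_nonneg h' (by linarith) (by linarith) (by linarith) (by linarith) (by linarith)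
      (by linarith)
  · apply noPos_sign2
    exact noPos_nonpos h' (by linarith) (by linarith) (by linarith) (by linarith) (by linarith)
      (by linarith) (by linarith)
  · apply noPos_sign3
    exact noPos_nonneg h' (by linarith) (by linarith) (by linarith) (by linarith) (by linarith)
      (by linarith)
  · apply noPos_sign1
    exact noPos_nonneg h' (by linarith) (by linarith) (by linarith) (by linarith) (by linarith)
      (by linarith)
  · exact noPos_nonpos h' hα hβ hγ (by linarith) (by linarith) (by linarith) (by linarith)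

end Pool.Agent.Helper24.LW
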